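import Pool.Agent.Y157.PC.Stm

/-!
# The density of the bad integers

(helper293, job PC-AC of helper157.)  For all `d` outside a set of density zero, a homomorphism `ψ`
of finite level, unramified outside `S`, which satisfies the condition `c` at the decomposition
groups of the prime factors of `d` satisfies it everywhere.
-/

set_option autoImplicit false
set_option linter.all false

namespace Pool.Agent.Y293.PC

open Pool.Agent.Y157.PS Pool.Agent.Y157.PC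

/-- the integers up to `X` in a set are finite in number -/
theorem fin_box (X : ℕ) (P : ℤ → Prop) : {d : ℤ | d.natAbs ≤ X ∧ P d}.Finite := by
  refine (Set.finite_Icc (-(X : ℤ)) X).subset fun d hd => ?_
  have h := hd.1
  simp only [Set.mem_Icc]
  omega

/-- one homomorphism -/
theorem one {κ Γ : Type} [Field κ] [Algebra ℚ κ] [IsAlgClosure ℚ κ] [Group Γ]
    (hCHD : S_CHD) (hSIEV : S_SIEV) (S : Finset ℕ)
    (E : IntermediateField ℚ κ) (hE : FiniteDimensional ℚ E) (c : (κ ≃ₐ[ℚ] κ) → Γ → Prop)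
    (hc : ∀ σ σ' γ, (∀ z ∈ E, σ z = σ' z) → c σ γ → c σ' γ)
    (ψ : (κ ≃ₐ[ℚ] κ) →* Γ) (hψ : FinLevel ψ) (δ : ℝ) (hδ : 0 < δ) :
    ∃ X₀ : ℕ, ∀ X : ℕ, X₀ ≤ X →
      ({d : ℤ | d.natAbs ≤ X ∧
        ((∀ p : ℕ, p.Prime → (p : ℤ) ∣ d → p ∉ S → ∀ V : ValuationSubring κ,
          (p : κ) ∈ V.nonunits → ∀ σ, Dec V σ → c σ (ψ σ)) ∧
          ∃ σ, ¬ c σ (ψ σ))}.ncard : ℝ) ≤ δ * X := by
  by_cases hσ : ∃ σ, ¬ c σ (ψ σ)
  · obtain ⟨σ₀, hσ₀⟩ := hσ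
    obtain ⟨Eψ, hfin, hker⟩ := hψ
    haveI := hE
    haveI := hfin
    have hsup : FiniteDimensional ℚ (E ⊔ Eψ : IntermediateField ℚ κ) :=
      IntermediateField.finiteDimensional_sup E Eψ
    have hB := hCHD κ S (E ⊔ Eψ) hsup σ₀
    obtain ⟨X₀, hX₀⟩ := hSIEV (ChebSet S (E ⊔ Eψ) σ₀) (fun p hp => hp.1) hB δ hδ
    refine ⟨X₀, fun X hX => le_trans ?_ (hX₀ X hX)⟩
    have hsub : {d : ℤ | d.natAbs ≤ X ∧
        ((∀ p : ℕ, p.Prime → (p : ℤ) ∣ d → p ∉ S → ∀ V : ValuationSubring κ,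
          (p : κ) ∈ V.nonunits → ∀ σ, Dec V σ → c σ (ψ σ)) ∧
          ∃ σ, ¬ c σ (ψ σ))} ⊆
        {d : ℤ | d.natAbs ≤ X ∧ ∀ p ∈ ChebSet S (E ⊔ Eψ) σ₀, ¬ (p : ℤ) ∣ d} := by
      intro d hd
      refine ⟨hd.1, fun p hp hpd => hσ₀ ?_⟩
      obtain ⟨hp1, hp2, V, hV, φ, hφ, hz⟩ := hp
      have h1 := hd.2.1 p hp1 hpd hp2 V hV φ hφ
      have h2 : ψ (σ₀⁻¹ * φ) = 1 := by
        refine hker _ ?_
        rw [IntermediateField.mem_fixingSubgroup_iff]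
        intro z hzE
        have h3 : φ z = σ₀ z := hz z ((le_sup_right : Eψ ≤ E ⊔ Eψ) hzE)
        rw [AlgEquiv.mul_apply, h3, AlgEquiv.aut_inv]
        exact σ₀.symm_apply_apply z
      have h4 : ψ φ = ψ σ₀ := by
        rw [map_mul, map_inv] at h2
        exact (inv_mul_eq_one.mp h2).symm
      rw [h4] at h1
      exact hc φ σ₀ _ (fun z hzE => hz z ((le_sup_left : E ≤ E ⊔ Eψ) hzE)) h1
    exact_mod_cast Set.ncard_le_ncard hsub (fin_box X _)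
  · refine ⟨0, fun X _ => ?_⟩
    have hempty : {d : ℤ | d.natAbs ≤ X ∧
        ((∀ p : ℕ, p.Prime → (p : ℤ) ∣ d → p ∉ S → ∀ V : ValuationSubring κ,
          (p : κ) ∈ V.nonunits → ∀ σ, Dec V σ → c σ (ψ σ)) ∧
          ∃ σ, ¬ c σ (ψ σ))} = ∅ := by
      ext d
      simp only [Set.mem_setOf_eq, Set.mem_empty_iff_false, iff_false]
      exact fun h => hσ h.2.2
    rw [hempty, Set.ncard_empty]
    simp only [Nat.cast_zero]
    positivity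

/-- finite unions of sets of integers of small density -/
theorem many {ι : Type} (s : Finset ι) (P : ι → ℤ → Prop) (δ : ℝ)
    (h : ∀ i ∈ s, ∃ X₀ : ℕ, ∀ X : ℕ, X₀ ≤ X →
      ({d : ℤ | d.natAbs ≤ X ∧ P i d}.ncard : ℝ) ≤ δ * X) :
    ∃ X₀ : ℕ, ∀ X : ℕ, X₀ ≤ X →
      ({d : ℤ | d.natAbs ≤ X ∧ ∃ i ∈ s, P i d}.ncard : ℝ) ≤ s.card * (δ * X) := by
  classical
  induction s using Finset.induction_on with
  | empty =>
    refine ⟨0, fun X _ => ?_⟩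
    have hempty : {d : ℤ | d.natAbs ≤ X ∧ ∃ i ∈ (∅ : Finset ι), P i d} = ∅ := by
      ext d; simp
    rw [hempty, Set.ncard_empty]
    simp
  | insert a s ha ih =>
    obtain ⟨X₁, h1⟩ := ih fun i hi => h i (Finset.mem_insert_of_mem hi)
    obtain ⟨X₂, h2⟩ := h a (Finset.mem_insert_self a s)
    refine ⟨max X₁ X₂, fun X hX => ?_⟩
    have h3 := h1 X (le_trans (le_max_left _ _) hX)
    have h4 := h2 X (le_trans (le_max_right _ _) hX)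
    have hsub : {d : ℤ | d.natAbs ≤ X ∧ ∃ i ∈ insert a s, P i d} ⊆
        {d : ℤ | d.natAbs ≤ X ∧ P a d} ∪ {d : ℤ | d.natAbs ≤ X ∧ ∃ i ∈ s, P i d} := by
      rintro d ⟨hd, i, hi, hP⟩
      rcases Finset.mem_insert.mp hi with rfl | hi
      · exact Or.inl ⟨hd, hP⟩
      · exact Or.inr ⟨hd, i, hi, hP⟩
    have h5 : {d : ℤ | d.natAbs ≤ X ∧ ∃ i ∈ insert a s, P i d}.ncard ≤
        {d : ℤ | d.natAbs ≤ X ∧ P a d}.ncard +
          {d : ℤ | d.natAbs ≤ X ∧ ∃ i ∈ s, P i d}.ncard :=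
      (Set.ncard_le_ncard hsub ((fin_box X _).union (fin_box X _))).trans (Set.ncard_union_le _ _)
    have h6 : ({d : ℤ | d.natAbs ≤ X ∧ ∃ i ∈ insert a s, P i d}.ncard : ℝ) ≤
        ({d : ℤ | d.natAbs ≤ X ∧ P a d}.ncard : ℝ) +
          ({d : ℤ | d.natAbs ≤ X ∧ ∃ i ∈ s, P i d}.ncard : ℝ) := by exact_mod_cast h5
    rw [Finset.card_insert_of_notMem ha]
    push_cast
    linarith

/-- the bad integers have density zero -/
theorem ac (hHMF : S_HMF) (hCHD : S_CHD) (hSIEV : S_SIEV) : S_AC := by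
  intro κ Γ _ _ _ _ _ S E hE c hc ε hε
  have hF := hHMF κ Γ S
  have hcard : (0 : ℝ) < (hF.toFinset.card : ℝ) + 1 := by positivity
  obtain ⟨X₀, hX₀⟩ := many hF.toFinset
    (fun (ψ : (κ ≃ₐ[ℚ] κ) →* Γ) (d : ℤ) =>
      (∀ p : ℕ, p.Prime → (p : ℤ) ∣ d → p ∉ S → ∀ V : ValuationSubring κ,
        (p : κ) ∈ V.nonunits → ∀ σ, Dec V σ → c σ (ψ σ)) ∧ ∃ σ, ¬ c σ (ψ σ))
    (ε / ((hF.toFinset.card : ℝ) + 1)) (fun ψ hψ => by
      have h := (hF.mem_toFinset.mp hψ).1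
      exact one hCHD hSIEV S E hE c hc ψ h _ (div_pos hε hcard))
  refine ⟨X₀, fun X hX => ?_⟩
  have h1 := hX₀ X hX
  have h2 : {d : ℤ | d.natAbs ≤ X ∧ d ∈ BadSet S c} ⊆
      {d : ℤ | d.natAbs ≤ X ∧ ∃ ψ ∈ hF.toFinset,
        ((∀ p : ℕ, p.Prime → (p : ℤ) ∣ d → p ∉ S → ∀ V : ValuationSubring κ,
          (p : κ) ∈ V.nonunits → ∀ σ, Dec V σ → c σ (ψ σ)) ∧ ∃ σ, ¬ c σ (ψ σ))} := by
    rintro d ⟨hd, ψ, h3, h4, h5, h6⟩
    exact ⟨hd, ψ, hF.mem_toFinset.mpr ⟨h3, h4⟩, h5, h6⟩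
  have h3 : ({d : ℤ | d.natAbs ≤ X ∧ d ∈ BadSet S c}.ncard : ℝ) ≤
      ({d : ℤ | d.natAbs ≤ X ∧ ∃ ψ ∈ hF.toFinset,
        ((∀ p : ℕ, p.Prime → (p : ℤ) ∣ d → p ∉ S → ∀ V : ValuationSubring κ,
          (p : κ) ∈ V.nonunits → ∀ σ, Dec V σ → c σ (ψ σ)) ∧ ∃ σ, ¬ c σ (ψ σ))}.ncard : ℝ) := by
    exact_mod_cast Set.ncard_le_ncard h2 (fin_box X _)
  refine h3.trans (h1.trans ?_)
  have hX' : (0 : ℝ) ≤ X := by positivity
  have h4 : (hF.toFinset.card : ℝ) * (ε / ((hF.toFinset.card : ℝ) + 1)) ≤ ε := by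
    rw [mul_div_assoc', div_le_iff₀ hcard]
    nlinarith
  calc (hF.toFinset.card : ℝ) * (ε / ((hF.toFinset.card : ℝ) + 1) * X)
      = (hF.toFinset.card : ℝ) * (ε / ((hF.toFinset.card : ℝ) + 1)) * X := by ring
    _ ≤ ε * X := mul_le_mul_of_nonneg_right h4 hX'

end Pool.Agent.Y293.PC
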